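import Mathlib

/-!
 The commutative Banach algebra `Y + l^1` : for a Banach space `Y` and a contraction
 `Q : Y -> l^2(I)`, the space `Y x l^1(I)` (sum norm) with the product
 `(y, s) (z, t) = (0, (Q y + s) (Q z + t))` (pointwise product of elements of `l^2`).
-/

open scoped ENNReal

namespace Pool.Agent.Helper44.SS

/-- `l^1(I)` -/
noncomputable abbrev L1 (I : Type*) := lp (fun _ : I => ℂ) 1
/-- `l^2(I)` -/
noncomputable abbrev L2 (I : Type*) := lp (fun _ : I => ℂ) 2

variable {I : Type*}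

lemma L1.norm_eq (s : L1 I) : ‖s‖ = ∑' i, ‖s i‖ := by
  have := lp.norm_rpow_eq_tsum (p := 1) (by norm_num) s
  simpa using this

lemma L1.summable (s : L1 I) : Summable fun i => ‖s i‖ := by
  have := (lp.memℓp s).summable (by norm_num)
  simpa using this

/-- the inclusion of `l^1` in `l^2` -/
noncomputable def incl : L1 I →ₗ[ℂ] L2 I :=
  lp.linearMapOfLE ℂ (fun _ : I => ℂ) (by norm_num)

@[simp] lemma incl_apply (s : L1 I) (i : I) : (incl s : I → ℂ) i = s i := by
  unfold incl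
  rw [lp.coe_linearMapOfLE_apply]

lemma norm_incl_le (s : L1 I) : ‖incl s‖ ≤ ‖s‖ := by
  refine lp.norm_le_of_tsum_le (p := 2) (by norm_num) (norm_nonneg _) ?_
  have h1 : ∀ i, ‖(incl s : I → ℂ) i‖ ^ (2 : ℝ≥0∞).toReal ≤ ‖s‖ * ‖s i‖ := by
    intro i
    rw [incl_apply]
    have : ‖s i‖ ≤ ‖s‖ := lp.norm_apply_le_norm one_ne_zero s i
    have h2 : ‖s i‖ ^ (2 : ℝ≥0∞).toReal = ‖s i‖ * ‖s i‖ := by
      simp [pow_two]
    rw [h2]
    exact mul_le_mul_of_nonneg_right this (norm_nonneg _)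
  have hs : Summable fun i => ‖s‖ * ‖s i‖ := (L1.summable s).mul_left _
  have hs2 : Summable fun i => ‖(incl s : I → ℂ) i‖ ^ (2 : ℝ≥0∞).toReal :=
    Summable.of_nonneg_of_le (fun i => by positivity) h1 hs
  calc ∑' i, ‖(incl s : I → ℂ) i‖ ^ (2 : ℝ≥0∞).toReal ≤ ∑' i, ‖s‖ * ‖s i‖ :=
        hs2.tsum_le_tsum h1 hs
    _ = ‖s‖ * ‖s‖ := by rw [tsum_mul_left, ← L1.norm_eq]
    _ = ‖s‖ ^ (2 : ℝ≥0∞).toReal := by simp [pow_two]

lemma holder2 : (2 : ℝ≥0∞).toReal.HolderConjugate (2 : ℝ≥0∞).toReal := by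
  simpa using Real.HolderConjugate.two_two

lemma memL1_mul (f g : L2 I) : Memℓp (fun i => f i * g i) 1 := by
  refine memℓp_gen ?_
  have := lp.summable_mul holder2 f g
  simpa using this

/-- the pointwise product `l^2 x l^2 -> l^1` -/
noncomputable def mul2 (f g : L2 I) : L1 I := ⟨fun i => f i * g i, memL1_mul f g⟩

@[simp] lemma mul2_apply (f g : L2 I) (i : I) : (mul2 f g : I → ℂ) i = f i * g i := rfl

lemma norm_mul2_le (f g : L2 I) : ‖mul2 f g‖ ≤ ‖f‖ * ‖g‖ := by
  rw [L1.norm_eq]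
  have := lp.tsum_mul_le_mul_norm' holder2 f g
  simpa using this

/-- The Banach algebra `Y + l^1(I)`. -/
@[nolint unusedArguments]
def BAlg {Y : Type*} [NormedAddCommGroup Y] [NormedSpace ℂ Y]
    (Q : Y →ₗ[ℂ] L2 I) (_hQ : ∀ y, ‖Q y‖ ≤ ‖y‖) : Type _ := WithLp 1 (Y × L1 I)

namespace BAlg

variable {Y : Type*} [NormedAddCommGroup Y] [NormedSpace ℂ Y]
    {Q : Y →ₗ[ℂ] L2 I} {hQ : ∀ y, ‖Q y‖ ≤ ‖y‖}

noncomputable instance instNAG : NormedAddCommGroup (BAlg Q hQ) :=
  inferInstanceAs (NormedAddCommGroup (WithLp 1 (Y × L1 I)))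

noncomputable instance instNS : NormedSpace ℂ (BAlg Q hQ) :=
  inferInstanceAs (NormedSpace ℂ (WithLp 1 (Y × L1 I)))

instance instCS [CompleteSpace Y] : CompleteSpace (BAlg Q hQ) :=
  inferInstanceAs (CompleteSpace (WithLp 1 (Y × L1 I)))

/-- constructor -/
def mk (y : Y) (s : L1 I) : BAlg Q hQ := WithLp.toLp 1 (y, s)

/-- first coordinate -/
def fst (x : BAlg Q hQ) : Y := (WithLp.ofLp (p := 1) (V := Y × L1 I) x).1
/-- second coordinate -/
def snd (x : BAlg Q hQ) : L1 I := (WithLp.ofLp (p := 1) (V := Y × L1 I) x).2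

@[simp] lemma fst_mk (y : Y) (s : L1 I) : (mk y s : BAlg Q hQ).fst = y := rfl
@[simp] lemma snd_mk (y : Y) (s : L1 I) : (mk y s : BAlg Q hQ).snd = s := rfl
@[simp] lemma fst_add (x y : BAlg Q hQ) : (x + y).fst = x.fst + y.fst := rfl
@[simp] lemma snd_add (x y : BAlg Q hQ) : (x + y).snd = x.snd + y.snd := rfl
@[simp] lemma fst_zero : (0 : BAlg Q hQ).fst = 0 := rfl
@[simp] lemma snd_zero : (0 : BAlg Q hQ).snd = 0 := rfl
@[simp] lemma fst_smul (c : ℂ) (x : BAlg Q hQ) : (c • x).fst = c • x.fst := rfl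
@[simp] lemma snd_smul (c : ℂ) (x : BAlg Q hQ) : (c • x).snd = c • x.snd := rfl

lemma ext' {x y : BAlg Q hQ} (h1 : x.fst = y.fst) (h2 : x.snd = y.snd) : x = y := by
  have : (WithLp.ofLp (p := 1) (V := Y × L1 I) x) = (WithLp.ofLp (p := 1) (V := Y × L1 I) y) :=
    Prod.ext h1 h2
  exact (WithLp.ofLp_injective 1) this

lemma norm_eq (x : BAlg Q hQ) : ‖x‖ = ‖x.fst‖ + ‖x.snd‖ :=
  WithLp.prod_norm_eq_of_L1 (α := Y) (β := L1 I) x

/-- the map `(y, s) ↦ Q y + s` to `l^2` -/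
noncomputable def Phi (x : BAlg Q hQ) : L2 I := Q x.fst + incl x.snd

lemma Phi_add (x y : BAlg Q hQ) : Phi (x + y) = Phi x + Phi y := by
  simp only [Phi, fst_add, snd_add, map_add]; abel

lemma Phi_smul (c : ℂ) (x : BAlg Q hQ) : Phi (c • x) = c • Phi x := by
  simp only [Phi, fst_smul, snd_smul, map_smul, smul_add]

lemma norm_Phi_le (x : BAlg Q hQ) : ‖Phi x‖ ≤ ‖x‖ := by
  rw [norm_eq]
  exact (norm_add_le _ _).trans (add_le_add (hQ _) (norm_incl_le _))

noncomputable instance instMul : Mul (BAlg Q hQ) := ⟨fun x y => mk 0 (mul2 (Phi x) (Phi y))⟩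

lemma mul_def (x y : BAlg Q hQ) : x * y = mk 0 (mul2 (Phi x) (Phi y)) := rfl

@[simp] lemma fst_mul (x y : BAlg Q hQ) : (x * y).fst = 0 := rfl
@[simp] lemma snd_mul (x y : BAlg Q hQ) : (x * y).snd = mul2 (Phi x) (Phi y) := rfl

lemma Phi_mul (x y : BAlg Q hQ) (i : I) :
    (Phi (x * y) : I → ℂ) i = (Phi x : I → ℂ) i * (Phi y : I → ℂ) i := by
  simp [Phi]

lemma Phi_add_apply (x y : BAlg Q hQ) (i : I) :
    (Phi (x + y) : I → ℂ) i = (Phi x : I → ℂ) i + (Phi y : I → ℂ) i := by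
  rw [Phi_add]; rfl

noncomputable instance instNCR : NonUnitalNormedCommRing (BAlg Q hQ) :=
  { (inferInstance : NormedAddCommGroup (BAlg Q hQ)) with
    left_distrib := by
      intro a b c
      refine ext' (by simp) ?_
      ext i
      simp only [snd_mul, snd_add, mul2_apply, lp.coeFn_add, Pi.add_apply, Phi_add_apply]
      ring
    right_distrib := by
      intro a b c
      refine ext' (by simp) ?_
      ext i
      simp only [snd_mul, snd_add, mul2_apply, lp.coeFn_add, Pi.add_apply, Phi_add_apply]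
      ring
    zero_mul := by
      intro a
      refine ext' (by simp) ?_
      ext i
      simp [Phi]
    mul_zero := by
      intro a
      refine ext' (by simp) ?_
      ext i
      simp [Phi]
    mul_assoc := by
      intro a b c
      refine ext' (by simp) ?_
      ext i
      simp only [snd_mul, mul2_apply, Phi_mul]
      ring
    mul_comm := by
      intro a b
      refine ext' (by simp) ?_
      ext i
      simp only [snd_mul, mul2_apply]
      ring
    norm_mul_le := by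
      intro a b
      rw [norm_eq]
      simp only [fst_mul, snd_mul, norm_zero, zero_add]
      exact (norm_mul2_le _ _).trans
        (mul_le_mul (norm_Phi_le _) (norm_Phi_le _) (norm_nonneg _) (norm_nonneg _)) }

instance instIST : IsScalarTower ℂ (BAlg Q hQ) (BAlg Q hQ) := ⟨by
  intro c a b
  refine ext' (by simp) ?_
  ext i
  simp only [smul_eq_mul, snd_mul, snd_smul, mul2_apply, Phi_smul, lp.coeFn_smul, Pi.smul_apply]
  ring⟩

instance instSCC : SMulCommClass ℂ (BAlg Q hQ) (BAlg Q hQ) := ⟨by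
  intro c a b
  refine ext' (by simp) ?_
  ext i
  simp only [smul_eq_mul, snd_mul, snd_smul, mul2_apply, Phi_smul, lp.coeFn_smul, Pi.smul_apply]
  ring⟩

end BAlg

end Pool.Agent.Helper44.SS
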