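import Mathlib
import Pool.Agent.Helper44.SS.BAlg

/-!
 The map `Q : Y -> l^2(N x N)` for a separable subspace `Y` of a dual space: it is injective,
 a contraction and only `0` is mapped into `l^1`.
-/

open scoped ENNReal
open TopologicalSpace

namespace Pool.Agent.Helper44.SS

/-- raw weight -/
noncomputable def w0 (n : ℕ × ℕ) : ℂ := ((1 / 2 : ℝ) ^ n.1 * (1 / ((n.2 : ℝ) + 1)) : ℝ)

lemma w0_mem : Memℓp w0 2 := by
  refine memℓp_gen ?_
  have h1 : Summable fun j : ℕ => ((1 / 2 : ℝ) ^ j) ^ 2 := by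
    have : Summable fun j : ℕ => (1 / 4 : ℝ) ^ j :=
      summable_geometric_of_lt_one (by norm_num) (by norm_num)
    refine this.congr fun j => ?_
    rw [← pow_mul, mul_comm, pow_mul]; norm_num
  have h2 : Summable fun m : ℕ => (1 / ((m : ℝ) + 1)) ^ 2 := by
    have := (summable_nat_add_iff 1).mpr (Real.summable_one_div_nat_pow.mpr (one_lt_two))
    refine this.congr fun m => ?_
    push_cast; rw [one_div_pow]
  have h3 := h1.mul_of_nonneg h2 (fun j => by positivity) (fun m => by positivity)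
  refine h3.congr fun n => ?_
  have : ‖w0 n‖ = (1 / 2 : ℝ) ^ n.1 * (1 / ((n.2 : ℝ) + 1)) := by
    unfold w0
    rw [Complex.norm_real, Real.norm_of_nonneg (by positivity)]
  rw [this]
  simp [mul_pow]

/-- raw weight in `l^2` -/
noncomputable def w1 : L2 (ℕ × ℕ) := ⟨w0, w0_mem⟩

/-- normalisation constant -/
noncomputable def cW : ℝ := (1 + ‖w1‖)⁻¹

lemma cW_pos : 0 < cW := by unfold cW; positivity

/-- normalised weight -/
noncomputable def wt : L2 (ℕ × ℕ) := (cW : ℂ) • w1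

lemma norm_wt_le : ‖wt‖ ≤ 1 := by
  unfold wt
  rw [norm_smul, Complex.norm_real, Real.norm_of_nonneg cW_pos.le]
  unfold cW
  rw [inv_mul_le_iff₀ (by positivity)]
  linarith

lemma wt_apply (n : ℕ × ℕ) :
    (wt : ℕ × ℕ → ℂ) n = ((cW * ((1 / 2 : ℝ) ^ n.1 * (1 / ((n.2 : ℝ) + 1))) : ℝ) : ℂ) := by
  have h : (wt : ℕ × ℕ → ℂ) n = (cW : ℂ) * w0 n := by
    unfold wt
    rw [lp.coeFn_smul, Pi.smul_apply, smul_eq_mul]
    rfl
  rw [h]
  unfold w0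
  push_cast
  ring

lemma norm_wt_apply (n : ℕ × ℕ) :
    ‖(wt : ℕ × ℕ → ℂ) n‖ = cW * ((1 / 2 : ℝ) ^ n.1 * (1 / ((n.2 : ℝ) + 1))) := by
  have := cW_pos
  rw [wt_apply, Complex.norm_real, Real.norm_of_nonneg (by positivity)]

variable {A : Type*} [NormedAddCommGroup A] [NormedSpace ℂ A]

lemma memQ (y : ℕ → A) (hy : ∀ j, ‖y j‖ ≤ 1) (g : A →L[ℂ] ℂ) :
    Memℓp (fun n : ℕ × ℕ => (wt : ℕ × ℕ → ℂ) n * g (y n.1)) 2 := by
  have h1 : Memℓp (fun n : ℕ × ℕ => ((‖g‖ : ℝ) : ℂ) * (wt : ℕ × ℕ → ℂ) n) 2 :=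
    (lp.memℓp wt).const_mul _
  refine memℓp_gen ?_
  have h2 := h1.summable (by norm_num)
  refine Summable.of_nonneg_of_le (fun n => by positivity) (fun n => ?_) h2
  refine Real.rpow_le_rpow (norm_nonneg _) ?_ (by norm_num)
  rw [norm_mul, norm_mul, Complex.norm_real, norm_norm, mul_comm]
  refine mul_le_mul_of_nonneg_right ?_ (norm_nonneg _)
  calc ‖g (y n.1)‖ ≤ ‖g‖ * ‖y n.1‖ := g.le_opNorm _
    _ ≤ ‖g‖ * 1 := mul_le_mul_of_nonneg_left (hy _) (norm_nonneg _)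
    _ = ‖g‖ := mul_one _

variable {Y : Type*} [NormedAddCommGroup Y] [NormedSpace ℂ Y]

/-- the map to `l^2` -/
noncomputable def Qmap (ev : Y →L[ℂ] (A →L[ℂ] ℂ)) (y : ℕ → A) (hy : ∀ j, ‖y j‖ ≤ 1) :
    Y →ₗ[ℂ] L2 (ℕ × ℕ) where
  toFun g := ⟨fun n => (wt : ℕ × ℕ → ℂ) n * ev g (y n.1), memQ y hy (ev g)⟩
  map_add' g h := by
    ext n
    have : ev (g + h) (y n.1) = ev g (y n.1) + ev h (y n.1) := by rw [map_add]; rfl
    change (wt : ℕ × ℕ → ℂ) n * ev (g + h) (y n.1) =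
      (wt : ℕ × ℕ → ℂ) n * ev g (y n.1) + (wt : ℕ × ℕ → ℂ) n * ev h (y n.1)
    rw [this, mul_add]
  map_smul' c g := by
    ext n
    have : ev (c • g) (y n.1) = c * ev g (y n.1) := by rw [map_smul]; rfl
    change (wt : ℕ × ℕ → ℂ) n * ev (c • g) (y n.1) =
      c * ((wt : ℕ × ℕ → ℂ) n * ev g (y n.1))
    rw [this, mul_left_comm]

@[simp] lemma Qmap_apply (ev : Y →L[ℂ] (A →L[ℂ] ℂ)) (y : ℕ → A) (hy : ∀ j, ‖y j‖ ≤ 1)
    (g : Y) (n : ℕ × ℕ) : (Qmap ev y hy g : ℕ × ℕ → ℂ) n =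
      (wt : ℕ × ℕ → ℂ) n * ev g (y n.1) := rfl

lemma norm_Qmap_le (ev : Y →L[ℂ] (A →L[ℂ] ℂ)) (hev : ∀ g, ‖ev g‖ ≤ ‖g‖) (y : ℕ → A)
    (hy : ∀ j, ‖y j‖ ≤ 1) (g : Y) : ‖Qmap ev y hy g‖ ≤ ‖g‖ := by
  have h1 : ‖Qmap ev y hy g‖ ≤ ‖((‖g‖ : ℝ) : ℂ) • wt‖ := by
    refine lp.norm_mono (by norm_num) fun n => ?_
    rw [Qmap_apply, lp.coeFn_smul, Pi.smul_apply, norm_mul, norm_smul, Complex.norm_real,
      norm_norm, mul_comm]
    refine mul_le_mul_of_nonneg_right ?_ (norm_nonneg _)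
    calc ‖ev g (y n.1)‖ ≤ ‖ev g‖ * ‖y n.1‖ := (ev g).le_opNorm _
      _ ≤ ‖ev g‖ * 1 := mul_le_mul_of_nonneg_left (hy _) (norm_nonneg _)
      _ = ‖ev g‖ := mul_one _
      _ ≤ ‖g‖ := hev g
  refine h1.trans ?_
  rw [norm_smul, Complex.norm_real, norm_norm]
  calc ‖g‖ * ‖wt‖ ≤ ‖g‖ * 1 := mul_le_mul_of_nonneg_left norm_wt_le (norm_nonneg g)
    _ = ‖g‖ := mul_one _

lemma Qmap_not_l1 (ev : Y →L[ℂ] (A →L[ℂ] ℂ)) (y : ℕ → A) (hy : ∀ j, ‖y j‖ ≤ 1)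
    (g : Y) (hg : Summable fun n => ‖(Qmap ev y hy g : ℕ × ℕ → ℂ) n‖) (j : ℕ) :
    ev g (y j) = 0 := by
  by_contra hne
  have h1 := hg.prod_factor j
  have h2 : Summable fun m : ℕ => (1 : ℝ) / ((m : ℝ) + 1) := by
    have hc : cW * (1 / 2 : ℝ) ^ j * ‖ev g (y j)‖ ≠ 0 := by
      have := cW_pos
      have := norm_pos_iff.mpr hne
      positivity
    rw [← summable_mul_left_iff hc]
    refine h1.congr fun m => ?_
    rw [Qmap_apply, norm_mul, norm_wt_apply]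
    ring
  have h3 : Summable fun m : ℕ => (1 : ℝ) / ((m + 1 : ℕ) : ℝ) := by
    refine h2.congr fun m => ?_
    push_cast; rfl
  exact Real.not_summable_one_div_natCast ((summable_nat_add_iff 1).mp h3)

/-- for a separable space of functionals there is a sequence in the unit ball separating it -/
lemma exists_sep [SeparableSpace Y] (ev : Y →L[ℂ] (A →L[ℂ] ℂ)) (hev : ∀ g, ‖ev g‖ = ‖g‖) :
    ∃ y : ℕ → A, (∀ j, ‖y j‖ ≤ 1) ∧ ∀ g : Y, (∀ j, ev g (y j) = 0) → g = 0 := by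
  have hd : Dense (Set.range (denseSeq Y)) := denseRange_denseSeq Y
  have hex : ∀ j : ℕ, ∃ y : A, ‖y‖ ≤ 1 ∧
      ‖ev (denseSeq Y j)‖ ≤ 2 * ‖ev (denseSeq Y j) y‖ := by
    intro j
    by_cases h0 : ‖ev (denseSeq Y j)‖ = 0
    · exact ⟨0, by simp, by rw [h0]; positivity⟩
    · have hpos : 0 < ‖ev (denseSeq Y j)‖ := lt_of_le_of_ne (norm_nonneg _) (Ne.symm h0)
      obtain ⟨x, hx1, hx2⟩ := (ev (denseSeq Y j)).exists_lt_apply_of_lt_opNorm
        (half_lt_self hpos)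
      exact ⟨x, hx1.le, by linarith⟩
  choose y hy1 hy2 using hex
  refine ⟨y, hy1, fun g hz => ?_⟩
  by_contra hne
  have hpos : 0 < ‖g‖ := norm_pos_iff.mpr hne
  obtain ⟨z, hj, ⟨j, rfl⟩⟩ := Metric.dense_iff.mp hd g (‖g‖ / 4) (by positivity)
  have hj' : ‖ev (denseSeq Y j) - ev g‖ < ‖g‖ / 4 := by
    rw [← map_sub, hev, ← dist_eq_norm]; exact hj
  have h1 : ‖g‖ ≤ ‖ev (denseSeq Y j)‖ + ‖g‖ / 4 := by
    have := norm_sub_norm_le (ev g) (ev (denseSeq Y j))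
    rw [norm_sub_rev, hev g] at this
    linarith
  have h2 : ‖ev (denseSeq Y j) (y j)‖ ≤ ‖g‖ / 4 := by
    have h3 : ev (denseSeq Y j) (y j) = (ev (denseSeq Y j) - ev g) (y j) := by
      change _ = ev (denseSeq Y j) (y j) - ev g (y j)
      rw [hz j, sub_zero]
    rw [h3]
    calc _ ≤ ‖ev (denseSeq Y j) - ev g‖ * ‖y j‖ := ContinuousLinearMap.le_opNorm _ _
      _ ≤ ‖g‖ / 4 * 1 := mul_le_mul hj'.le (hy1 j) (norm_nonneg _) (by positivity)
      _ = ‖g‖ / 4 := mul_one _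
  have h4 := hy2 j
  linarith

lemma isSeparable_closure_span (f : ℕ → (A →L[ℂ] ℂ)) :
    IsSeparable (((Submodule.span ℂ (Set.range f)).topologicalClosure :
      Submodule ℂ (A →L[ℂ] ℂ)) : Set (A →L[ℂ] ℂ)) := by
  rw [Submodule.topologicalClosure_coe]
  exact ((Set.countable_range f).isSeparable.span (R := ℂ)).closure

/-- the abstract Banach space spanned by a sequence of functionals -/
lemma exists_space.{u} {A : Type u} [NormedAddCommGroup A] [NormedSpace ℂ A]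
    (f : ℕ → (A →L[ℂ] ℂ)) : ∃ (Y : Type u) (_ : NormedAddCommGroup Y) (_ : NormedSpace ℂ Y)
    (_ : CompleteSpace Y) (_ : SeparableSpace Y) (ev : Y →L[ℂ] (A →L[ℂ] ℂ)) (f' : ℕ → Y),
    (∀ g, ‖ev g‖ = ‖g‖) ∧ ∀ k, ev (f' k) = f k := by
  let Y := (Submodule.span ℂ (Set.range f)).topologicalClosure
  have hfY : ∀ k, f k ∈ Y := fun k =>
    Submodule.le_topologicalClosure _ (Submodule.subset_span ⟨k, rfl⟩)
  have hc : CompleteSpace Y := (Submodule.isClosed_topologicalClosure _).completeSpace_coe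
  have hs : SeparableSpace Y := (isSeparable_closure_span f).separableSpace
  exact ⟨Y, inferInstance, inferInstance, hc, hs, Y.subtypeL, fun k => ⟨f k, hfY k⟩,
    fun g => rfl, fun k => rfl⟩

end Pool.Agent.Helper44.SS
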