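import Mathlib
import Pool.Agent.Helper44.SS.QMap
import Pool.Agent.Helper61.SS.Goals

/-!
 The converse: from a nuclear representation of zero with trace different from zero we get a
 commutative semisimple Banach algebra `B` such that the projective tensor product of `A` and `B`
 is not semisimple.
-/

open scoped ENNReal
open TopologicalSpace Filter Topology TensorProduct

namespace Pool.Agent.Helper44.SS

universe u

open Pool.Agent.Helper61.SS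

/-- characters kill the radical -/
lemma char_radical {B : Type*} [NonUnitalNormedCommRing B] [NormedSpace ℂ B] [IsScalarTower ℂ B B]
    [SMulCommClass ℂ B B] (ψ : B →ₙₐ[ℂ] ℂ) (x : B)
    (hx : (x : Unitization ℂ B) ∈ Ring.jacobson (Unitization ℂ B)) : ψ x = 0 := by
  have hs : Function.Surjective (Unitization.lift ψ : Unitization ℂ B →ₐ[ℂ] ℂ) := by
    intro c
    exact ⟨algebraMap ℂ _ c, by simp⟩
  have hm : (RingHom.ker (Unitization.lift ψ : Unitization ℂ B →ₐ[ℂ] ℂ)).IsMaximal :=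
    RingHom.ker_isMaximal_of_surjective _ hs
  rw [Ring.jacobson_eq_sInf_isMaximal, Ideal.mem_sInf] at hx
  have := hx hm
  rw [RingHom.mem_ker] at this
  simpa using this

/-- annihilators are in the radical -/
lemma ann_radical {C : Type*} [NonUnitalNormedRing C] [NormedSpace ℂ C] [IsScalarTower ℂ C C]
    [SMulCommClass ℂ C C] (u : C) (hu : ∀ c : C, c * u = 0) :
    (u : Unitization ℂ C) ∈ Ring.jacobson (Unitization ℂ C) := by
  rw [← Ideal.jacobson_bot, Ideal.mem_jacobson_iff]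
  intro y
  have h1 : y * (u : Unitization ℂ C) = ((y.fst • u : C) : Unitization ℂ C) := by
    ext
    · simp
    · simp [hu]
  have h2 : ((y.fst • u : C) : Unitization ℂ C) * ((y.fst • u : C) : Unitization ℂ C) = 0 := by
    rw [← Unitization.inr_mul, mul_smul_comm, hu, smul_zero, Unitization.inr_zero]
  refine ⟨1 - y * (u : Unitization ℂ C), ?_⟩
  rw [Ideal.mem_bot]
  have h3 : (1 - y * (u : Unitization ℂ C)) * y * (u : Unitization ℂ C) =
      y * (u : Unitization ℂ C) := by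
    rw [mul_assoc, sub_mul, one_mul, h1, h2, sub_zero]
  rw [h3]
  abel

section alg

variable {I : Type*} {Y : Type*} [NormedAddCommGroup Y] [NormedSpace ℂ Y]
    {Q : Y →ₗ[ℂ] L2 I} {hQ : ∀ y, ‖Q y‖ ≤ ‖y‖}

/-- coordinate characters -/
noncomputable def chr (i : I) : BAlg Q hQ →ₙₐ[ℂ] ℂ where
  toFun x := (BAlg.Phi x : I → ℂ) i
  map_smul' c x := by
    rw [BAlg.Phi_smul]; rfl
  map_zero' := by simp [BAlg.Phi]
  map_add' x y := BAlg.Phi_add_apply x y i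
  map_mul' x y := BAlg.Phi_mul x y i

lemma semisimple_BAlg (hinj : ∀ y : Y, (Summable fun i => ‖(Q y : I → ℂ) i‖) → y = 0) :
    Semisimple (BAlg Q hQ) := by
  intro x hx
  have h1 : ∀ i, (BAlg.Phi x : I → ℂ) i = 0 := fun i => char_radical (chr i) x hx
  have h2 : ∀ i, (Q x.fst : I → ℂ) i = - x.snd i := by
    intro i
    have := h1 i
    unfold BAlg.Phi at this
    rw [lp.coeFn_add, Pi.add_apply, incl_apply] at this
    exact eq_neg_of_add_eq_zero_left this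
  have h3 : x.fst = 0 := by
    apply hinj
    refine (L1.summable x.snd).congr fun i => ?_
    rw [h2 i, norm_neg]
  have h4 : x.snd = 0 := by
    ext i
    have := h2 i
    rw [h3, map_zero] at this
    simpa using this
  exact BAlg.ext' h3 h4

/-- the embedding of `l^1` -/
noncomputable def iota : L1 I →L[ℂ] BAlg Q hQ :=
  LinearMap.mkContinuous
    { toFun := fun s => BAlg.mk 0 s
      map_add' := fun s t => BAlg.ext' (by simp) (by simp)
      map_smul' := fun c s => BAlg.ext' (by simp) (by simp) } 1 (by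
      intro s
      rw [BAlg.norm_eq]
      simp)

@[simp] lemma iota_apply (s : L1 I) : (iota s : BAlg Q hQ) = BAlg.mk 0 s := rfl

/-- first coordinate as a continuous map -/
noncomputable def fstL : BAlg Q hQ →L[ℂ] Y :=
  LinearMap.mkContinuous
    { toFun := fun x => x.fst
      map_add' := fun s t => rfl
      map_smul' := fun c s => rfl } 1 (by
      intro s
      rw [BAlg.norm_eq, one_mul]
      exact le_add_of_nonneg_right (norm_nonneg _))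

@[simp] lemma fstL_apply (x : BAlg Q hQ) : fstL x = x.fst := rfl

/-- the embedding of `Y` -/
noncomputable def emb (y : Y) : BAlg Q hQ := BAlg.mk y 0

@[simp] lemma norm_emb (y : Y) : ‖(emb y : BAlg Q hQ)‖ = ‖y‖ := by
  rw [BAlg.norm_eq]; simp [emb]

@[simp] lemma Phi_emb (y : Y) : BAlg.Phi (emb y : BAlg Q hQ) = Q y := by
  simp [BAlg.Phi, emb]

lemma mul_emb (b : BAlg Q hQ) (y : Y) : b * emb y = iota (mul2 (BAlg.Phi b) (Q y)) := by
  rw [BAlg.mul_def, Phi_emb, iota_apply]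

end alg

/-- unit vector -/
noncomputable def e1 {I : Type*} (i : I) : L1 I := by
  classical
  exact lp.single 1 i (1 : ℂ)

lemma norm_e1 {I : Type*} (i : I) : ‖e1 i‖ = 1 := by
  classical
  unfold e1
  rw [lp.norm_single (by norm_num)]
  simp

lemma hasSum_e1 {I : Type*} (s : L1 I) : HasSum (fun i => s i • e1 i) s := by
  classical
  have h := lp.hasSum_single (p := 1) (by norm_num) s
  have : (fun i => lp.single (E := fun _ : I => ℂ) 1 i (s i)) = fun i => s i • e1 i := by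
    funext i
    unfold e1
    rw [← lp.single_smul]
    simp
  rwa [this] at h

section aux

variable {A C : Type*} [NormedAddCommGroup A] [NormedSpace ℂ A]
    [NormedAddCommGroup C] [NormedSpace ℂ C] {I : Type*}

lemma aux1 (a : A) (s : L1 I) (T : A →L[ℂ] L1 I →L[ℂ] C) :
    T a s = ∑' i, (s : I → ℂ) i • T a (e1 i) := by
  have hsum := (hasSum_e1 s).mapL (T a)
  rw [← hsum.tsum_eq]
  refine tsum_congr fun i => ?_
  rw [map_smul]

lemma aux2 (a : A) (s : L1 I) (T : A →L[ℂ] L1 I →L[ℂ] C) (M : ℝ) (ha : ‖a‖ ≤ M) (i : I) :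
    ‖(s : I → ℂ) i • T a (e1 i)‖ ≤ (‖T‖ * M) * ‖(s : I → ℂ) i‖ := by
  rw [norm_smul, mul_comm]
  refine mul_le_mul_of_nonneg_right ?_ (norm_nonneg _)
  calc ‖T a (e1 i)‖ ≤ ‖T‖ * ‖a‖ * ‖e1 i‖ := T.le_opNorm₂ _ _
    _ = ‖T‖ * ‖a‖ := by rw [norm_e1, mul_one]
    _ ≤ ‖T‖ * M := mul_le_mul_of_nonneg_left ha (norm_nonneg T)

lemma aux3 (a : ℕ → A) (s : ℕ → L1 I) (i : I) (T : A →L[ℂ] L1 I →L[ℂ] C)
    (hsk : Summable fun k => (s k : I → ℂ) i • a k)
    (h0 : ∑' k, (s k : I → ℂ) i • a k = 0) :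
    ∑' k, (s k : I → ℂ) i • T (a k) (e1 i) = 0 := by
  have h2 := hsk.hasSum.mapL (T.flip (e1 i))
  rw [h0, map_zero] at h2
  rw [← h2.tsum_eq]
  refine tsum_congr fun k => ?_
  rw [map_smul]
  rfl

lemma aux4 (s : ℕ → L1 I) (hs : Summable fun k => ‖s k‖) :
    Summable fun p : ℕ × I => ‖(s p.1 : I → ℂ) p.2‖ := by
  rw [summable_prod_of_nonneg (fun p => norm_nonneg _)]
  refine ⟨fun k => L1.summable (s k), ?_⟩
  refine hs.congr fun k => ?_
  exact L1.norm_eq (s k)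

lemma aux5 [CompleteSpace A] (a : ℕ → A) (M : ℝ) (ha : ∀ k, ‖a k‖ ≤ M) (s : ℕ → L1 I)
    (hs : Summable fun k => ‖s k‖) (i : I) : Summable fun k => (s k : I → ℂ) i • a k := by
  have hM : 0 ≤ M := (norm_nonneg _).trans (ha 0)
  refine Summable.of_norm_bounded (hs.mul_left M) fun k => ?_
  rw [norm_smul, mul_comm]
  exact mul_le_mul (ha k) (lp.norm_apply_le_norm one_ne_zero (s k) i) (norm_nonneg _) hM

lemma tsum_zero_aux [CompleteSpace A] [CompleteSpace C]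
    (a : ℕ → A) (M : ℝ) (ha : ∀ k, ‖a k‖ ≤ M) (s : ℕ → L1 I) (hs : Summable fun k => ‖s k‖)
    (h0 : ∀ i, ∑' k, (s k : I → ℂ) i • a k = 0)
    (T : A →L[ℂ] L1 I →L[ℂ] C) : ∑' k, T (a k) (s k) = 0 := by
  have hsm : Summable fun p : ℕ × I => (s p.1 : I → ℂ) p.2 • T (a p.1) (e1 p.2) :=
    Summable.of_norm_bounded ((aux4 s hs).mul_left (‖T‖ * M))
      (fun p => aux2 (a p.1) (s p.1) T M (ha p.1) p.2)
  have h1 : ∀ k, T (a k) (s k) = ∑' i, (s k : I → ℂ) i • T (a k) (e1 i) :=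
    fun k => aux1 (a k) (s k) T
  have h2 : ∀ i, ∑' k, (s k : I → ℂ) i • T (a k) (e1 i) = 0 :=
    fun i => aux3 a s i T (aux5 a M ha s hs i) (h0 i)
  have h3 : ∑' k, T (a k) (s k) = ∑' k, ∑' i, (s k : I → ℂ) i • T (a k) (e1 i) := tsum_congr h1
  have h4 : ∑' i, ∑' k, (s k : I → ℂ) i • T (a k) (e1 i) =
      ∑' k, ∑' i, (s k : I → ℂ) i • T (a k) (e1 i) :=
    Summable.tsum_comm (f := fun (k : ℕ) (i : I) => (s k : I → ℂ) i • T (a k) (e1 i)) hsm
  rw [h3, ← h4, tsum_congr h2, tsum_zero]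

end aux

section main

variable {A : Type*} {C : Type*} [NonUnitalNormedRing A] [NormedSpace ℂ A] [IsScalarTower ℂ A A]
    [SMulCommClass ℂ A A] [NonUnitalNormedRing C] [NormedSpace ℂ C]

lemma norm_j_le {B : Type*} [NonUnitalNormedRing B] [NormedSpace ℂ B]
    {j : A →ₗ[ℂ] B →ₗ[ℂ] C} (hj : IsProj A B C j) (a : A) (b : B) : ‖j a b‖ ≤ 1 * ‖a‖ * ‖b‖ := by
  have h := hj.norm (a ⊗ₜ[ℂ] b)
  rw [TensorProduct.lift.tmul] at h
  rw [h, one_mul]
  refine csInf_le ⟨0, ?_⟩ ⟨1, fun _ => a, fun _ => b, by simp, by simp⟩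
  rintro r ⟨n, a', b', -, rfl⟩
  exact Finset.sum_nonneg fun i _ => mul_nonneg (norm_nonneg _) (norm_nonneg _)

/-- continuous version of `j` -/
noncomputable def JJ {B : Type*} [NonUnitalNormedRing B] [NormedSpace ℂ B]
    {j : A →ₗ[ℂ] B →ₗ[ℂ] C} (hj : IsProj A B C j) : A →L[ℂ] B →L[ℂ] C :=
  LinearMap.mkContinuous₂ j 1 (norm_j_le hj)

lemma JJ_apply {B : Type*} [NonUnitalNormedRing B] [NormedSpace ℂ B]
    {j : A →ₗ[ℂ] B →ₗ[ℂ] C} (hj : IsProj A B C j) (a : A) (b : B) : JJ hj a b = j a b := rfl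

lemma summable_j {B : Type*} [NonUnitalNormedRing B] [NormedSpace ℂ B] [CompleteSpace C]
    {j : A →ₗ[ℂ] B →ₗ[ℂ] C} (hj : IsProj A B C j) (x : ℕ → A) (b : ℕ → B) (M : ℝ)
    (hx : ∀ k, ‖x k‖ ≤ M) (hb : Summable fun k => ‖b k‖) : Summable fun k => j (x k) (b k) := by
  refine Summable.of_norm_bounded (hb.mul_left M) fun k => ?_
  refine (norm_j_le hj _ _).trans ?_
  rw [one_mul]
  exact mul_le_mul_of_nonneg_right (hx k) (norm_nonneg _)

lemma all_zero {B : Type*} [NonUnitalNormedRing B] [NormedSpace ℂ B]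
    {j : A →ₗ[ℂ] B →ₗ[ℂ] C} (hj : IsProj A B C j) (u : C) (h : ∀ a b, j a b * u = 0) (c : C) :
    c * u = 0 := by
  refine DenseRange.induction_on (p := fun c => c * u = 0) hj.dense c ?_ ?_
  · exact isClosed_eq (continuous_id.mul continuous_const) continuous_const
  · intro t
    induction t using TensorProduct.induction_on with
    | zero => rw [map_zero, zero_mul]
    | tmul a b => rw [TensorProduct.lift.tmul]; exact h a b
    | add s t hs ht => rw [map_add, add_mul, hs, ht, add_zero]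

variable {Y : Type*} [NormedAddCommGroup Y] [NormedSpace ℂ Y]
    {Q : Y →ₗ[ℂ] L2 (ℕ × ℕ)} {hQ : ∀ y, ‖Q y‖ ≤ ‖y‖}

lemma prod_zero [CompleteSpace A] [CompleteSpace C]
    {j : A →ₗ[ℂ] BAlg Q hQ →ₗ[ℂ] C} (hj : IsProj A (BAlg Q hQ) C j)
    (x : ℕ → A) (f : ℕ → Y) (M : ℝ) (hx : ∀ k, ‖x k‖ ≤ M) (hf : Summable fun k => ‖f k‖)
    (hz : ∀ i : ℕ × ℕ, ∑' k, (Q (f k) : ℕ × ℕ → ℂ) i • x k = 0)
    (a : A) (b : BAlg Q hQ) :
    j a b * ∑' k, j (x k) (emb (f k)) = 0 := by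
  have hsum : Summable fun k => j (x k) (emb (f k)) :=
    summable_j hj x _ M hx (by simpa using hf)
  have h1 : j a b * ∑' k, j (x k) (emb (f k)) = ∑' k, j a b * j (x k) (emb (f k)) :=
    (hsum.tsum_mul_left _).symm
  let T : A →L[ℂ] L1 (ℕ × ℕ) →L[ℂ] C :=
    (JJ hj).bilinearComp (ContinuousLinearMap.mul ℂ A a) iota
  have h2 : ∀ k, j a b * j (x k) (emb (f k)) =
      T (x k) (mul2 (BAlg.Phi b) (Q (f k))) := by
    intro k
    rw [hj.mul, mul_emb]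
    rfl
  rw [h1, tsum_congr h2]
  refine tsum_zero_aux x M hx _ ?_ ?_ T
  · refine Summable.of_nonneg_of_le (fun k => norm_nonneg _) (fun k => ?_)
      (hf.mul_left ‖BAlg.Phi b‖)
    exact (norm_mul2_le _ _).trans
      (mul_le_mul_of_nonneg_left (hQ (f k)) (norm_nonneg _))
  · intro i
    have h3 : ∀ k, (mul2 (BAlg.Phi b) (Q (f k)) : ℕ × ℕ → ℂ) i • x k =
        (BAlg.Phi b : ℕ × ℕ → ℂ) i • ((Q (f k) : ℕ × ℕ → ℂ) i • x k) := by
      intro k
      rw [mul2_apply, smul_smul]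
    rw [tsum_congr h3, tsum_const_smul'', hz, smul_zero]

lemma not_semisimple [CompleteSpace A] [CompleteSpace C] [IsScalarTower ℂ C C] [SMulCommClass ℂ C C]
    {j : A →ₗ[ℂ] BAlg Q hQ →ₗ[ℂ] C} (hj : IsProj A (BAlg Q hQ) C j)
    (hEXT : ∀ β : A →L[ℂ] BAlg Q hQ →L[ℂ] ℂ, ∃ L : C →L[ℂ] ℂ, ∀ a b, L (j a b) = β a b)
    (ev : Y →L[ℂ] (A →L[ℂ] ℂ))
    (x : ℕ → A) (f : ℕ → Y) (M : ℝ) (hx : ∀ k, ‖x k‖ ≤ M) (hf : Summable fun k => ‖f k‖)
    (hz : ∀ i : ℕ × ℕ, ∑' k, (Q (f k) : ℕ × ℕ → ℂ) i • x k = 0)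
    (ht : ∑' k, ev (f k) (x k) ≠ 0) : ¬ Semisimple C := by
  intro hC
  obtain ⟨L, hL⟩ := hEXT (ev.comp fstL).flip
  have hsum : Summable fun k => j (x k) (emb (f k)) :=
    summable_j hj x _ M hx (by simpa using hf)
  have hu : ∑' k, j (x k) (emb (f k)) = 0 :=
    hC _ (ann_radical _ (all_zero hj _ (prod_zero hj x f M hx hf hz)))
  apply ht
  have h1 := hsum.hasSum.mapL L
  rw [hu, map_zero] at h1
  rw [← h1.tsum_eq]
  refine tsum_congr fun k => ?_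
  rw [hL]
  rfl

end main

lemma ex_aux (A : Type u) [NonUnitalNormedRing A] [NormedSpace ℂ A] (Y : Type u)
    [NormedAddCommGroup Y] [NormedSpace ℂ Y] [CompleteSpace Y]
    (Q : Y →ₗ[ℂ] L2 (ℕ × ℕ)) (hQ : ∀ g, ‖Q g‖ ≤ ‖g‖)
    (h : Semisimple (BAlg Q hQ) ∧
    ∀ (C : Type u) [NonUnitalNormedRing C] [NormedSpace ℂ C] [IsScalarTower ℂ C C]
      [SMulCommClass ℂ C C] [CompleteSpace C] (j : A →ₗ[ℂ] (BAlg Q hQ) →ₗ[ℂ] C),
      IsProj A (BAlg Q hQ) C j → ¬ Semisimple C) :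
    ∃ (B : Type u) (_ : NonUnitalNormedCommRing B) (_ : NormedSpace ℂ B) (_ : IsScalarTower ℂ B B)
    (_ : SMulCommClass ℂ B B) (_ : CompleteSpace B), Semisimple B ∧
    ∀ (C : Type u) [NonUnitalNormedRing C] [NormedSpace ℂ C] [IsScalarTower ℂ C C]
      [SMulCommClass ℂ C C] [CompleteSpace C] (j : A →ₗ[ℂ] B →ₗ[ℂ] C),
      IsProj A B C j → ¬ Semisimple C :=
  ⟨BAlg Q hQ, BAlg.instNCR, BAlg.instNS, BAlg.instIST, BAlg.instSCC, BAlg.instCS, h⟩

lemma conv_aux (hEXT : G_EXT.{u, u, u, u}) (A : Type u)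
    [NonUnitalNormedRing A] [NormedSpace ℂ A] [IsScalarTower ℂ A A] [SMulCommClass ℂ A A]
    [CompleteSpace A] (Y : Type u) [NormedAddCommGroup Y] [NormedSpace ℂ Y] [CompleteSpace Y]
    (Q : Y →ₗ[ℂ] L2 (ℕ × ℕ)) (hQ : ∀ g, ‖Q g‖ ≤ ‖g‖)
    (hQ0 : ∀ g : Y, (Summable fun i => ‖(Q g : ℕ × ℕ → ℂ) i‖) → g = 0)
    (ev : Y →L[ℂ] (A →L[ℂ] ℂ))
    (x : ℕ → A) (f : ℕ → Y) (M : ℝ) (hx : ∀ k, ‖x k‖ ≤ M) (hf : Summable fun k => ‖f k‖)
    (hz : ∀ i : ℕ × ℕ, ∑' k, (Q (f k) : ℕ × ℕ → ℂ) i • x k = 0)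
    (ht : ∑' k, ev (f k) (x k) ≠ 0) :
    ∃ (B : Type u) (_ : NonUnitalNormedCommRing B) (_ : NormedSpace ℂ B) (_ : IsScalarTower ℂ B B)
    (_ : SMulCommClass ℂ B B) (_ : CompleteSpace B), Semisimple B ∧
    ∀ (C : Type u) [NonUnitalNormedRing C] [NormedSpace ℂ C] [IsScalarTower ℂ C C]
      [SMulCommClass ℂ C C] [CompleteSpace C] (j : A →ₗ[ℂ] B →ₗ[ℂ] C),
      IsProj A B C j → ¬ Semisimple C := by
  refine ex_aux A Y Q hQ ⟨semisimple_BAlg hQ0, ?_⟩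
  intro C _ _ _ _ _ j hj
  have hE : ∀ β : A →L[ℂ] BAlg Q hQ →L[ℂ] ℂ, ∃ L : C →L[ℂ] ℂ, ∀ a b, L (j a b) = β a b := by
    intro β
    obtain ⟨L, hL⟩ := hEXT A (BAlg Q hQ) C (ULift.{u} ℂ) j hj
      ((ContinuousLinearMap.compL ℂ (BAlg Q hQ) ℂ (ULift.{u} ℂ)
        (ContinuousLinearEquiv.ulift (R₁ := ℂ) (M₁ := ℂ)).symm.toContinuousLinearMap).comp β)
    refine ⟨(ContinuousLinearEquiv.ulift (R₁ := ℂ) (M₁ := ℂ)).toContinuousLinearMap.comp L,
      fun a b => ?_⟩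
    rw [ContinuousLinearMap.comp_apply, hL]
    rfl
  exact not_semisimple hj hE ev x f M hx hf hz ht

lemma conv_aux2 (hEXT : G_EXT.{u, u, u, u}) (A : Type u)
    [NonUnitalNormedRing A] [NormedSpace ℂ A] [IsScalarTower ℂ A A] [SMulCommClass ℂ A A]
    [CompleteSpace A] (Y : Type u) [NormedAddCommGroup Y] [NormedSpace ℂ Y] [CompleteSpace Y]
    [SeparableSpace Y] (ev : Y →L[ℂ] (A →L[ℂ] ℂ)) (hev : ∀ g, ‖ev g‖ = ‖g‖)
    (x : ℕ → A) (f : ℕ → Y) (M : ℝ) (hx : ∀ k, ‖x k‖ ≤ M) (hf : Summable fun k => ‖f k‖)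
    (hz : ∀ a : A, ∑' k, ev (f k) a • x k = 0)
    (ht : ∑' k, ev (f k) (x k) ≠ 0) :
    ∃ (B : Type u) (_ : NonUnitalNormedCommRing B) (_ : NormedSpace ℂ B) (_ : IsScalarTower ℂ B B)
    (_ : SMulCommClass ℂ B B) (_ : CompleteSpace B), Semisimple B ∧
    ∀ (C : Type u) [NonUnitalNormedRing C] [NormedSpace ℂ C] [IsScalarTower ℂ C C]
      [SMulCommClass ℂ C C] [CompleteSpace C] (j : A →ₗ[ℂ] B →ₗ[ℂ] C),
      IsProj A B C j → ¬ Semisimple C := by
  obtain ⟨y, hy1, hy2⟩ := exists_sep ev hev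
  have hQ0 : ∀ g : Y, (Summable fun i => ‖(Qmap ev y hy1 g : ℕ × ℕ → ℂ) i‖) → g = 0 :=
    fun g hg => hy2 g (fun j => Qmap_not_l1 ev y hy1 g hg j)
  have hQz : ∀ i : ℕ × ℕ, ∑' k, (Qmap ev y hy1 (f k) : ℕ × ℕ → ℂ) i • x k = 0 := by
    intro i
    have h3 : ∀ k, (Qmap ev y hy1 (f k) : ℕ × ℕ → ℂ) i • x k =
        (wt : ℕ × ℕ → ℂ) i • (ev (f k) (y i.1) • x k) := by
      intro k
      rw [Qmap_apply, smul_smul]
    rw [tsum_congr h3, tsum_const_smul'', hz, smul_zero]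
  exact conv_aux hEXT A Y (Qmap ev y hy1) (norm_Qmap_le ev (fun g => (hev g).le) y hy1) hQ0 ev
    x f M hx hf hQz ht

theorem conv : G_CONV.{u} := by
  intro _ hEXT A _ _ _ _ _ hT
  obtain ⟨x, f, hx, hf, hz, ht⟩ := hT
  obtain ⟨M, hM⟩ : ∃ M, ∀ k, ‖x k‖ ≤ M := by
    obtain ⟨M, hM⟩ := (hx.norm).bddAbove_range
    exact ⟨M, fun k => hM ⟨k, rfl⟩⟩
  obtain ⟨Y, _, _, _, _, ev, f', hev, hf'⟩ := exists_space f
  refine conv_aux2 hEXT A Y ev hev x f' M hM ?_ ?_ ?_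
  · refine hf.congr fun k => ?_
    rw [← hev, hf']
  · intro a
    rw [← hz a]
    exact tsum_congr fun k => by rw [hf']
  · have h : ∑' k, ev (f' k) (x k) = ∑' k, f k (x k) := tsum_congr fun k => by rw [hf']
    rw [h]
    exact ht

end Pool.Agent.Helper44.SS
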